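import Pool.Agent.Q44.MX.StmC

/-!
# MX-COND: conditional moments
-/

set_option autoImplicit false

namespace Q227.MX

open Finset Module Q44.MX
open scoped Classical

theorem ck_eq_of_card {P Q : Type} [Fintype P] [Fintype Q] {a : Sym2 P → ZMod 2} {a' : Sym2 Q → ZMod 2}
    (h : Nat.card (LinearMap.ker (sm a)) = Nat.card (LinearMap.ker (sm a'))) : ck a = ck a' := by
  have h1 := Module.natCard_eq_pow_finrank (K := ZMod 2) (V := LinearMap.ker (sm a))
  have h2 := Module.natCard_eq_pow_finrank (K := ZMod 2) (V := LinearMap.ker (sm a'))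
  rw [Nat.card_zmod] at h1 h2
  rw [h1, h2] at h
  exact Nat.pow_right_injective (le_refl 2) h

theorem ck_reindex {P Q : Type} [Fintype P] [Fintype Q] (e : P ≃ Q) (a : Sym2 Q → ZMod 2) :
    ck (fun z => a (z.map e)) = ck a := by
  apply ck_eq_of_card
  have hsm : ∀ (x : P → ZMod 2) (p : P), sm (fun z => a (z.map e)) x p = sm a (fun q => x (e.symm q)) (e p) := by
    intro x p
    simp only [sm, LinearMap.coe_mk, AddHom.coe_mk, Sym2.map_mk]
    exact Fintype.sum_equiv e _ _ fun q => by simp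
  refine Nat.card_congr
    { toFun := fun x => ⟨fun q => x.1 (e.symm q), ?_⟩
      invFun := fun y => ⟨fun p => y.1 (e p), ?_⟩
      left_inv := fun x => Subtype.ext (funext fun p => by simp)
      right_inv := fun y => Subtype.ext (funext fun q => by simp) }
  · rw [LinearMap.mem_ker]
    funext q
    have := hsm x.1 (e.symm q)
    rw [LinearMap.mem_ker.1 x.2, e.apply_symm_apply] at this
    exact this.symm
  · rw [LinearMap.mem_ker]
    funext p
    rw [hsm]
    have : (fun q => y.1 (e (e.symm q))) = y.1 := funext fun q => by simp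
    rw [this, LinearMap.mem_ker.1 y.2]
    rfl

theorem card_fix {T : Type} [Fintype T] (E : Finset T) (ν : T → ZMod 2) (S : Finset (T → ZMod 2))
    (hS : ∀ a, a ∈ S ↔ ∀ e, e ∉ E → a e = ν e) : S.card = 2 ^ E.card := by
  have h : S = Fintype.piFinset fun e => if e ∈ E then (univ : Finset (ZMod 2)) else {ν e} := by
    ext a
    rw [hS]
    simp only [Fintype.mem_piFinset]
    refine forall_congr' fun e => ?_
    by_cases he : e ∈ E <;> simp [he]
  rw [h, Fintype.card_piFinset]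
  have h2 : ∀ e, (if e ∈ E then (univ : Finset (ZMod 2)) else {ν e}).card = if e ∈ E then 2 else 1 := by
    intro e
    by_cases he : e ∈ E <;> simp [he, ZMod.card]
  simp only [h2]
  rw [prod_ite_mem]
  simp

theorem card_od {Q : Type} [Fintype Q] (ν : Sym2 Q → ZMod 2) :
    (univ.filter fun a : Sym2 Q → ZMod 2 => Od a ν).card = 2 ^ Fintype.card Q := by
  have h := card_fix (univ.image (fun q : Q => s(q, q))) ν (univ.filter fun a : Sym2 Q → ZMod 2 => Od a ν) (by
    intro a
    simp only [mem_filter, mem_univ, true_and, mem_image, not_exists, Od]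
    constructor
    · intro h e
      induction e using Sym2.ind with
      | _ p q =>
        intro he
        refine h p q fun hpq => he p ?_
        rw [hpq]
    · intro h p q hpq
      refine h _ fun r hr => hpq ?_
      rcases Sym2.eq_iff.1 hr with ⟨h1, h2⟩ | ⟨h1, h2⟩
      · rw [← h1, ← h2]
      · rw [← h1, ← h2])
  rw [h, card_image_of_injective]
  · rfl
  · intro p q hpq
    simpa using hpq

theorem card_fib {Q R : Type} [Fintype Q] [Fintype R] (α : Sym2 Q → ZMod 2) :
    (univ.filter fun a : Sym2 (Q ⊕ R) → ZMod 2 => ∀ e, a (e.map Sum.inl) = α e).card =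
      2 ^ (univ \ (univ.image fun e : Sym2 Q => (e.map Sum.inl : Sym2 (Q ⊕ R)))).card := by
  refine card_fix _ (Function.extend (fun e : Sym2 Q => (e.map Sum.inl : Sym2 (Q ⊕ R))) α 0) _ ?_
  intro a
  have hinj : Function.Injective (fun e : Sym2 Q => (e.map Sum.inl : Sym2 (Q ⊕ R))) :=
    Sym2.map.injective Sum.inl_injective
  simp only [mem_filter, mem_univ, true_and, mem_sdiff, not_not, mem_image]
  constructor
  · rintro h _ ⟨e, rfl⟩
    rw [hinj.extend_apply]
    exact h e
  · intro h e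
    rw [h _ ⟨e, rfl⟩]
    exact hinj.extend_apply _ _ e

theorem ft_nonneg (s b c : ℕ) : 0 ≤ ft s b c := by
  unfold ft
  split_ifs
  · exact Nat.cast_nonneg _
  · exact le_refl _

theorem ft_le_ut (s b c : ℕ) : ft s b c ≤ (ut s c : ℝ) := by
  unfold ft
  split_ifs
  · exact le_refl _
  · exact Nat.cast_nonneg _

theorem ut_le (s c : ℕ) : ut s c ≤ 2 ^ (c * s) := by
  unfold ut
  calc ∏ i ∈ range s, (2 ^ c - 2 ^ i) ≤ ∏ i ∈ range s, 2 ^ c := prod_le_prod' fun i _ => Nat.sub_le _ _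
    _ = 2 ^ (c * s) := by rw [prod_const, card_range, pow_mul]

theorem ft_le (s b c : ℕ) : ft s b c ≤ 2 ^ (s * (s + b)) := by
  unfold ft
  split_ifs with h
  · have h1 : ut s c ≤ 2 ^ (s * (s + b)) :=
      (ut_le s c).trans (Nat.pow_le_pow_right (by norm_num) (by rw [mul_comm]; exact Nat.mul_le_mul_left _ h))
    calc (ut s c : ℝ) ≤ ((2 ^ (s * (s + b)) : ℕ) : ℝ) := by exact_mod_cast h1
      _ = _ := by push_cast; rfl
  · positivity

theorem cond_core (h2 : S_BDM) {Q R : Type} [Fintype Q] [Fintype R] (ν : Sym2 Q → ZMod 2) (s b w : ℕ)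
    (hsw : s + w ≤ Fintype.card R) (hw : 1 ≤ w) (A' : Finset (Sym2 (Q ⊕ R) → ZMod 2))
    (hAm : ∀ a, a ∈ A' ↔ Od (fun z => a (z.map Sum.inl)) ν) (D' : Finset (Sym2 Q → ZMod 2))
    (hDm : ∀ a, a ∈ D' ↔ Od a ν ∧ Fintype.card R - s - w < ck a) :
    (∑ a ∈ A', ft s b (ck a)) ≤
      (A'.card : ℝ) * (2 ^ (s * (s - 1) / 2) * (1 + 4 / 2 ^ w) + 2 ^ (s * (s + b)) *
          ((D'.card : ℝ) / 2 ^ Fintype.card Q)) := by
  have hA' : A' = univ.filter (fun a : Sym2 (Q ⊕ R) → ZMod 2 => Od (fun z => a (z.map Sum.inl)) ν) := by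
    ext a
    simp [hAm]
  have hDe : D' = univ.filter fun a : Sym2 Q → ZMod 2 => Od a ν ∧ Fintype.card R - s - w < ck a := by
    ext a
    simp [hDm]
  set D := univ.filter (fun a : Sym2 Q → ZMod 2 => Od a ν) with hD
  set N : ℕ := 2 ^ (univ \ (univ.image fun e : Sym2 Q => (e.map Sum.inl : Sym2 (Q ⊕ R)))).card with hN
  set t := Fintype.card R with ht
  have hmap : ∀ a ∈ A', (fun z : Sym2 Q => a (z.map Sum.inl)) ∈ D := by
    intro a ha
    simpa [hA', hD] using ha
  have hfib : ∀ α ∈ D, (A'.filter fun a => (fun z : Sym2 Q => a (z.map Sum.inl)) = α) =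
      univ.filter fun a : Sym2 (Q ⊕ R) → ZMod 2 => ∀ e, a (e.map Sum.inl) = α e := by
    intro α hα
    ext a
    simp only [hA', hD, mem_filter, mem_univ, true_and] at hα ⊢
    constructor
    · rintro ⟨_, h⟩ e
      exact congrFun h e
    · intro h
      have : (fun z : Sym2 Q => a (z.map Sum.inl)) = α := funext h
      exact ⟨by rw [this]; exact hα, this⟩
  have hcard : A'.card = 2 ^ Fintype.card Q * N := by
    rw [card_eq_sum_card_fiberwise hmap, ← card_od ν, ← hD, card_eq_sum_ones, sum_mul]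
    refine sum_congr rfl fun α hα => ?_
    rw [hfib α hα, card_fib, one_mul]
  have hM0 : (0 : ℝ) ≤ 2 ^ (s * (s - 1) / 2) * (1 + 4 / 2 ^ w) := by positivity
  have hF0 : (0 : ℝ) ≤ 2 ^ (s * (s + b)) := by positivity
  have hterm : ∀ α ∈ D, (∑ a ∈ A'.filter (fun a => (fun z : Sym2 Q => a (z.map Sum.inl)) = α), ft s b (ck a)) ≤
      (N : ℝ) * (2 ^ (s * (s - 1) / 2) * (1 + 4 / 2 ^ w) +
        2 ^ (s * (s + b)) * (if t - s - w < ck α then 1 else 0)) := by
    intro α hα
    rw [hfib α hα]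
    by_cases hc : t - s - w < ck α
    · rw [if_pos hc, mul_one]
      calc (∑ a ∈ univ.filter (fun a : Sym2 (Q ⊕ R) → ZMod 2 => ∀ e, a (e.map Sum.inl) = α e), ft s b (ck a))
          ≤ ∑ a ∈ univ.filter (fun a : Sym2 (Q ⊕ R) → ZMod 2 => ∀ e, a (e.map Sum.inl) = α e),
              (2 : ℝ) ^ (s * (s + b)) := sum_le_sum fun a _ => ft_le s b _
        _ = (N : ℝ) * 2 ^ (s * (s + b)) := by rw [sum_const, card_fib, nsmul_eq_mul]
        _ ≤ _ := by
          refine mul_le_mul_of_nonneg_left ?_ (Nat.cast_nonneg _)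
          linarith
    · rw [if_neg hc, mul_zero, add_zero]
      have hc' : ck α ≤ t - s - w := not_lt.1 hc
      calc (∑ a ∈ univ.filter (fun a : Sym2 (Q ⊕ R) → ZMod 2 => ∀ e, a (e.map Sum.inl) = α e), ft s b (ck a))
          ≤ ∑ a ∈ univ.filter (fun a : Sym2 (Q ⊕ R) → ZMod 2 => ∀ e, a (e.map Sum.inl) = α e),
              (ut s (ck a) : ℝ) := sum_le_sum fun a _ => ft_le_ut s b _
        _ ≤ _ := h2 Q R α s (by omega)
        _ ≤ _ := by
          rw [card_fib, ← hN]
          refine mul_le_mul_of_nonneg_left ?_ (Nat.cast_nonneg _)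
          refine mul_le_mul_of_nonneg_left ?_ (by positivity)
          have h3 : (2 : ℝ) ^ (s + ck α) * 2 ^ w ≤ 2 ^ t := by
            rw [← pow_add]
            exact pow_le_pow_right₀ (by norm_num) (by omega)
          have h4 : (2 : ℝ) ^ (s + ck α) / 2 ^ t ≤ 1 / 2 ^ w := by
            rw [div_le_div_iff₀ (by positivity) (by positivity)]
            linarith
          have h5 : (4 : ℝ) / 2 ^ w = 4 * (1 / 2 ^ w) := by ring
          rw [h5]
          linarith
  have hp : (0 : ℝ) < 2 ^ Fintype.card Q := by positivity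
  calc (∑ a ∈ A', ft s b (ck a))
      = ∑ α ∈ D, ∑ a ∈ A'.filter (fun a => (fun z : Sym2 Q => a (z.map Sum.inl)) = α), ft s b (ck a) :=
        (sum_fiberwise_of_maps_to hmap _).symm
    _ ≤ ∑ α ∈ D, (N : ℝ) * (2 ^ (s * (s - 1) / 2) * (1 + 4 / 2 ^ w) +
        2 ^ (s * (s + b)) * (if t - s - w < ck α then 1 else 0)) := sum_le_sum hterm
    _ = (N : ℝ) * ((D.card : ℝ) * (2 ^ (s * (s - 1) / 2) * (1 + 4 / 2 ^ w)) +
        2 ^ (s * (s + b)) * ((D.filter fun α => t - s - w < ck α).card : ℝ)) := by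
        rw [← mul_sum, sum_add_distrib, sum_const, nsmul_eq_mul, ← mul_sum, sum_boole]
    _ = _ := by
        rw [hcard, hD, card_od, filter_filter, hDe]
        push_cast
        field_simp

theorem t_COND (h1 : S_RDC) (h2 : S_BDM) : S_COND := by
  intro ι _ B σ hσB s b t w ht hsw hw ν
  have hne : (B \ σ).Nonempty := card_pos.1 (by omega)
  obtain ⟨q₀, hq₀⟩ := hne
  obtain ⟨hqB, hqσ⟩ := mem_sdiff.1 hq₀
  have hσ : σ ⊆ B.erase q₀ := fun x hx => mem_erase.2 ⟨fun h => hqσ (h ▸ hx), hσB hx⟩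
  have hR : ((B.erase q₀) \ σ).card = t := by
    have : (B.erase q₀) \ σ = (B \ σ).erase q₀ := by
      ext x
      simp only [mem_sdiff, mem_erase]
      tauto
    rw [this, card_erase_of_mem hq₀, ht, Nat.add_sub_cancel]
  set A := univ.filter (fun a : Sym2 (B.erase q₀) → ZMod 2 =>
      ∀ p q : B.erase q₀, (p : ι) ∈ σ → (q : ι) ∈ σ → p ≠ q → a s(p, q) = ν s((p : ι), (q : ι))) with hA
  have h3 := h1 ι B σ q₀ hqB hσ ν (ft s b)
  rw [← hA] at h3
  -- the equivalence
  let φ : ↥σ ⊕ ↥((B.erase q₀) \ σ) → ↥(B.erase q₀) :=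
    Sum.elim (fun x => ⟨x.1, hσ x.2⟩) (fun x => ⟨x.1, (mem_sdiff.1 x.2).1⟩)
  have hφ : Function.Bijective φ := by
    constructor
    · rintro (x | x) (y | y) h
      · have hv := congrArg Subtype.val h
        exact congrArg Sum.inl (Subtype.ext hv)
      · have hv := congrArg Subtype.val h
        exact absurd ((hv : x.1 = y.1) ▸ x.2) (mem_sdiff.1 y.2).2
      · have hv := congrArg Subtype.val h
        exact absurd ((hv : x.1 = y.1).symm ▸ y.2) (mem_sdiff.1 x.2).2
      · have hv := congrArg Subtype.val h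
        exact congrArg Sum.inr (Subtype.ext hv)
    · intro x
      by_cases hx : (x : ι) ∈ σ
      · exact ⟨Sum.inl ⟨x, hx⟩, rfl⟩
      · exact ⟨Sum.inr ⟨x, mem_sdiff.2 ⟨x.2, hx⟩⟩, rfl⟩
  let e : ↥σ ⊕ ↥((B.erase q₀) \ σ) ≃ ↥(B.erase q₀) := Equiv.ofBijective φ hφ
  set ν' : Sym2 σ → ZMod 2 := fun z => ν (z.map Subtype.val) with hν'
  let E : (Sym2 (B.erase q₀) → ZMod 2) ≃ (Sym2 (↥σ ⊕ ↥((B.erase q₀) \ σ)) → ZMod 2) :=
    { toFun := fun a z => a (z.map e)
      invFun := fun a z => a (z.map e.symm)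
      left_inv := fun a => by
        funext z
        simp [Sym2.map_map]
      right_inv := fun a => by
        funext z
        simp [Sym2.map_map] }
  have hmemE : ∀ a, a ∈ A ↔ E a ∈ univ.filter (fun a : Sym2 (↥σ ⊕ ↥((B.erase q₀) \ σ)) → ZMod 2 =>
      Od (fun z => a (z.map Sum.inl)) ν') := by
    intro a
    simp only [hA, mem_filter, mem_univ, true_and, Od]
    constructor
    · intro h p q hpq
      have := h ⟨p.1, hσ p.2⟩ ⟨q.1, hσ q.2⟩ p.2 q.2 (fun h' => hpq (Subtype.ext (by have hv := congrArg Subtype.val h'; exact hv)))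
      exact this
    · intro h p q hp hq hpq
      have := h ⟨p.1, hp⟩ ⟨q.1, hq⟩ (fun h' => hpq (Subtype.ext (by have hv := congrArg Subtype.val h'; exact hv)))
      exact this
  have hcard : A.card = (univ.filter (fun a : Sym2 (↥σ ⊕ ↥((B.erase q₀) \ σ)) → ZMod 2 =>
      Od (fun z => a (z.map Sum.inl)) ν')).card := by
    refine card_equiv E fun a => hmemE a
  have hsum : ∑ a ∈ A, ft s b (ck a) = ∑ a ∈ univ.filter (fun a : Sym2 (↥σ ⊕ ↥((B.erase q₀) \ σ)) → ZMod 2 =>
      Od (fun z => a (z.map Sum.inl)) ν'), ft s b (ck a) := by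
    refine sum_equiv E hmemE fun a _ => ?_
    rw [← ck_reindex e a]
    rfl
  have hcore := cond_core h2 (Q := ↥σ) (R := ↥((B.erase q₀) \ σ)) ν' s b w
    (by rw [Fintype.card_coe, hR]; exact hsw) hw
    (univ.filter (fun a : Sym2 (↥σ ⊕ ↥((B.erase q₀) \ σ)) → ZMod 2 => Od (fun z => a (z.map Sum.inl)) ν'))
    (fun a => by simp) (univ.filter fun a : Sym2 σ → ZMod 2 => Od a (fun e => ν (e.map Subtype.val)) ∧
      t - s - w < ck a) (fun a => by rw [mem_filter, Fintype.card_coe, hR, hν']; simp)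
  rw [← hsum, ← hcard, Fintype.card_coe] at hcore
  have hpos : (0 : ℝ) < A.card := by
    have : A.Nonempty := by
      refine ⟨fun z => ν (z.map Subtype.val), ?_⟩
      simp only [hA, mem_filter, mem_univ, true_and]
      intro p q _ _ _
      rfl
    exact_mod_cast card_pos.2 this
  refine le_of_mul_le_mul_right ?_ hpos
  rw [h3]
  calc ((Agr σ ν).card : ℝ) * ∑ a ∈ A, ft s b (ck a)
      ≤ ((Agr σ ν).card : ℝ) * _ := mul_le_mul_of_nonneg_left hcore (Nat.cast_nonneg _)
    _ = _ := by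
      unfold pd
      ring

end Q227.MX
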