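import Pool.Agent.Q227.MX.COND

/-!
# MX-ONE: moments for one set
-/

set_option autoImplicit false

namespace Q227.MX

open Finset Module Q44.MX
open scoped Classical

theorem ut_succ (s c : ℕ) : ut (s + 1) c = ut s c * (2 ^ c - 2 ^ s) := by
  unfold ut
  rw [prod_range_succ]

theorem ut_lower {s m : ℕ} (h : s ≤ m) :
    (2 : ℝ) ^ (m * s) * (1 - (2 ^ s - 1) / 2 ^ m) ≤ (ut s m : ℝ) := by
  induction s with
  | zero => simp [ut]
  | succ s ih =>
    have h1 := ih (by omega)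
    rw [ut_succ, Nat.cast_mul, Nat.cast_sub (Nat.pow_le_pow_right (by norm_num) (by omega))]
    push_cast
    have hm : (0 : ℝ) < 2 ^ m := by positivity
    have h2 : (0 : ℝ) ≤ 2 ^ m - 2 ^ s := by
      have : (2 : ℝ) ^ s ≤ 2 ^ m := pow_le_pow_right₀ (by norm_num) (by omega)
      linarith
    have h3 : (1 : ℝ) ≤ 2 ^ s := one_le_pow₀ (by norm_num)
    calc (2 : ℝ) ^ (m * (s + 1)) * (1 - (2 ^ (s + 1) - 1) / 2 ^ m)
        ≤ 2 ^ (m * s) * (1 - (2 ^ s - 1) / 2 ^ m) * (2 ^ m - 2 ^ s) := by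
          have e1 : (2 : ℝ) ^ (m * s) * (1 - (2 ^ s - 1) / 2 ^ m) * (2 ^ m - 2 ^ s) =
              2 ^ (m * (s + 1)) * ((1 - (2 ^ s - 1) / 2 ^ m) * (1 - 2 ^ s / 2 ^ m)) := by
            rw [mul_add, mul_one, pow_add]
            field_simp
          rw [e1]
          refine mul_le_mul_of_nonneg_left ?_ (by positivity)
          have h4 : (0 : ℝ) ≤ (2 ^ s - 1) / 2 ^ m := div_nonneg (by linarith) hm.le
          have h5 : (0 : ℝ) ≤ 2 ^ s / 2 ^ m := by positivity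
          have e2 : ((2 : ℝ) ^ (s + 1) - 1) / 2 ^ m = (2 ^ s - 1) / 2 ^ m + 2 ^ s / 2 ^ m := by
            rw [pow_succ, ← add_div]; congr 1; ring
          rw [e2]
          nlinarith [mul_nonneg h4 h5]
      _ ≤ _ := mul_le_mul_of_nonneg_right h1 h2

theorem ut_sub_ft (s b c : ℕ) : (ut s c : ℝ) - ft s b c ≤ (ut (s + 1) c : ℝ) / 2 ^ (s + b) := by
  unfold ft
  split_ifs with h
  · rw [sub_self]
    positivity
  · rw [sub_zero, le_div_iff₀ (by positivity), ut_succ]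
    have h1 : (2 : ℕ) ^ (s + b) ≤ 2 ^ c - 2 ^ s := by
      have h2 : 2 ^ (s + b + 1) ≤ 2 ^ c := Nat.pow_le_pow_right (by norm_num) (by omega)
      have h3 : 2 ^ s ≤ 2 ^ (s + b) := Nat.pow_le_pow_right (by norm_num) (by omega)
      rw [pow_succ] at h2
      omega
    have h4 : ut s c * 2 ^ (s + b) ≤ ut s c * (2 ^ c - 2 ^ s) := Nat.mul_le_mul_left _ h1
    exact_mod_cast h4

theorem half_succ (s : ℕ) : (s + 1) * (s + 1 - 1) / 2 = s * (s - 1) / 2 + s := by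
  rw [Nat.add_sub_cancel]
  rcases s with _ | s
  · rfl
  · rw [Nat.add_sub_cancel]
    have : (s + 1 + 1) * (s + 1) = (s + 1) * s + (s + 1) * 2 := by ring
    rw [this, Nat.add_mul_div_right _ _ (by norm_num)]

theorem sum_ut_le (h2 : S_SYM) (P : Type) [Fintype P] (s : ℕ) :
    (∑ a : Sym2 P → ZMod 2, (ut s (ck a) : ℝ)) ≤ 2 ^ Fintype.card (Sym2 P) * 2 ^ (s * (s - 1) / 2) := by
  have h := h2 P s
  have h' : (∑ a : Sym2 P → ZMod 2, (ut s (ck a) : ℝ)) * 2 ^ (Fintype.card P * s) =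
      2 ^ Fintype.card (Sym2 P) * ut s (Fintype.card P) * 2 ^ (s * (s - 1) / 2) := by exact_mod_cast h
  have hp : (0 : ℝ) < 2 ^ (Fintype.card P * s) := by positivity
  have hu : (ut s (Fintype.card P) : ℝ) ≤ 2 ^ (Fintype.card P * s) := by exact_mod_cast ut_le s (Fintype.card P)
  refine le_of_mul_le_mul_right ?_ hp
  rw [h']
  calc (2 : ℝ) ^ Fintype.card (Sym2 P) * ut s (Fintype.card P) * 2 ^ (s * (s - 1) / 2)
      ≤ 2 ^ Fintype.card (Sym2 P) * 2 ^ (Fintype.card P * s) * 2 ^ (s * (s - 1) / 2) := by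
        refine mul_le_mul_of_nonneg_right ?_ (by positivity)
        exact mul_le_mul_of_nonneg_left hu (by positivity)
    _ = _ := by ring

theorem le_sum_ft (h2 : S_SYM) (P : Type) [Fintype P] (s b : ℕ) :
    (2 : ℝ) ^ Fintype.card (Sym2 P) * 2 ^ (s * (s - 1) / 2) *
      (1 - 2 ^ s / 2 ^ Fintype.card P - 1 / 2 ^ b) ≤ ∑ a : Sym2 P → ZMod 2, ft s b (ck a) := by
  set m := Fintype.card P with hm
  rcases le_or_gt s m with hs | hs
  · have h := h2 P s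
    have h' : (∑ a : Sym2 P → ZMod 2, (ut s (ck a) : ℝ)) * 2 ^ (m * s) =
        2 ^ Fintype.card (Sym2 P) * ut s m * 2 ^ (s * (s - 1) / 2) := by exact_mod_cast h
    have h3 := ut_lower hs
    have hp : (0 : ℝ) < 2 ^ (m * s) := by positivity
    have hmp : (0 : ℝ) < 2 ^ m := by positivity
    have h4 : (2 : ℝ) ^ Fintype.card (Sym2 P) * 2 ^ (s * (s - 1) / 2) * (1 - 2 ^ s / 2 ^ m) ≤
        ∑ a : Sym2 P → ZMod 2, (ut s (ck a) : ℝ) := by
      refine le_of_mul_le_mul_right ?_ hp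
      rw [h']
      have h5 : (1 : ℝ) - 2 ^ s / 2 ^ m ≤ 1 - (2 ^ s - 1) / 2 ^ m := by
        have : ((2 : ℝ) ^ s - 1) / 2 ^ m ≤ 2 ^ s / 2 ^ m := by
          apply div_le_div_of_nonneg_right _ hmp.le
          linarith
        linarith
      calc (2 : ℝ) ^ Fintype.card (Sym2 P) * 2 ^ (s * (s - 1) / 2) * (1 - 2 ^ s / 2 ^ m) * 2 ^ (m * s)
          = 2 ^ Fintype.card (Sym2 P) * 2 ^ (s * (s - 1) / 2) * (2 ^ (m * s) * (1 - 2 ^ s / 2 ^ m)) := by ring
        _ ≤ 2 ^ Fintype.card (Sym2 P) * 2 ^ (s * (s - 1) / 2) * (ut s m : ℝ) := by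
            refine mul_le_mul_of_nonneg_left ?_ (by positivity)
            exact (mul_le_mul_of_nonneg_left h5 hp.le).trans h3
        _ = _ := by ring
    have h6 : (∑ a : Sym2 P → ZMod 2, ((ut s (ck a) : ℝ) - ft s b (ck a))) ≤
        2 ^ Fintype.card (Sym2 P) * 2 ^ (s * (s - 1) / 2) * (1 / 2 ^ b) := by
      calc (∑ a : Sym2 P → ZMod 2, ((ut s (ck a) : ℝ) - ft s b (ck a)))
          ≤ ∑ a : Sym2 P → ZMod 2, (ut (s + 1) (ck a) : ℝ) / 2 ^ (s + b) :=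
            sum_le_sum fun a _ => ut_sub_ft s b _
        _ = (∑ a : Sym2 P → ZMod 2, (ut (s + 1) (ck a) : ℝ)) / 2 ^ (s + b) := by rw [sum_div]
        _ ≤ (2 ^ Fintype.card (Sym2 P) * 2 ^ ((s + 1) * (s + 1 - 1) / 2)) / 2 ^ (s + b) :=
            div_le_div_of_nonneg_right (sum_ut_le h2 P (s + 1)) (by positivity)
        _ = _ := by
            rw [half_succ, pow_add, pow_add]
            field_simp
    rw [sum_sub_distrib] at h6
    have e : (2 : ℝ) ^ Fintype.card (Sym2 P) * 2 ^ (s * (s - 1) / 2) * (1 - 2 ^ s / 2 ^ m - 1 / 2 ^ b) =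
        2 ^ Fintype.card (Sym2 P) * 2 ^ (s * (s - 1) / 2) * (1 - 2 ^ s / 2 ^ m) -
        2 ^ Fintype.card (Sym2 P) * 2 ^ (s * (s - 1) / 2) * (1 / 2 ^ b) := by ring
    rw [e]
    linarith
  · have h1 : (1 : ℝ) ≤ 2 ^ s / 2 ^ m := by
      rw [le_div_iff₀ (by positivity), one_mul]
      exact pow_le_pow_right₀ (by norm_num) hs.le
    have h3 : (0 : ℝ) ≤ 1 / 2 ^ b := by positivity
    calc (2 : ℝ) ^ Fintype.card (Sym2 P) * 2 ^ (s * (s - 1) / 2) * (1 - 2 ^ s / 2 ^ m - 1 / 2 ^ b) ≤ 0 := by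
          refine mul_nonpos_of_nonneg_of_nonpos (by positivity) ?_
          linarith
      _ ≤ _ := sum_nonneg fun a _ => ft_nonneg s b _

theorem t_ONE (h1 : S_RDC) (h2 : S_SYM) : S_ONE := by
  intro ι _ B s b m hB
  obtain ⟨q₀, hq⟩ : B.Nonempty := card_pos.1 (by omega)
  have key : ∀ f : ℕ → ℝ, (∑ g : Sym2 ι → ZMod 2, f (cr g B)) * 2 ^ Fintype.card (Sym2 (B.erase q₀)) =
      2 ^ Fintype.card (Sym2 ι) * ∑ a : Sym2 (B.erase q₀) → ZMod 2, f (ck a) := by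
    intro f
    have h := h1 ι B ∅ q₀ hq (empty_subset _) (fun _ => 0) f
    have e1 : Agr (∅ : Finset ι) (fun _ => (0 : ZMod 2)) = univ := by
      ext g
      simp [Agr]
    have e2 : (univ.filter fun a : Sym2 (B.erase q₀) → ZMod 2 =>
      ∀ p q : B.erase q₀, (p : ι) ∈ (∅ : Finset ι) → (q : ι) ∈ (∅ : Finset ι) → p ≠ q →
        a s(p, q) = (fun _ => (0 : ZMod 2)) s((p : ι), (q : ι))) = univ := by
      ext a
      simp
    rw [e1, e2, card_univ, card_univ, Fintype.card_fun, Fintype.card_fun, ZMod.card] at h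
    push_cast at h
    exact h
  have hcard : Fintype.card (B.erase q₀) = m := by
    rw [Fintype.card_coe, card_erase_of_mem hq, hB, Nat.add_sub_cancel]
  have hp : (0 : ℝ) < 2 ^ Fintype.card (Sym2 (B.erase q₀)) := by positivity
  constructor
  · have k := key (fun c => (ut s c : ℝ))
    have h3 : (∑ a : Sym2 (B.erase q₀) → ZMod 2, (ut s (ck a) : ℝ)) ≤
        2 ^ Fintype.card (Sym2 (B.erase q₀)) * 2 ^ (s * (s - 1) / 2) := by
      convert sum_ut_le h2 (B.erase q₀) s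
    generalize (∑ a : Sym2 (B.erase q₀) → ZMod 2, (ut s (ck a) : ℝ)) = Y at k h3
    generalize (∑ g : Sym2 ι → ZMod 2, (ut s (cr g B) : ℝ)) = X at k
    generalize (2 : ℝ) ^ Fintype.card (Sym2 (B.erase q₀)) = Z at *
    refine le_of_mul_le_mul_right ?_ hp
    rw [k]
    calc (2 : ℝ) ^ Fintype.card (Sym2 ι) * Y
        ≤ 2 ^ Fintype.card (Sym2 ι) * (Z * 2 ^ (s * (s - 1) / 2)) :=
          mul_le_mul_of_nonneg_left h3 (by positivity)
      _ = _ := by ring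
  · have k := key (fun c => ft s b c)
    have h3 : (2 : ℝ) ^ Fintype.card (Sym2 (B.erase q₀)) * 2 ^ (s * (s - 1) / 2) *
      (1 - 2 ^ s / 2 ^ m - 1 / 2 ^ b) ≤ ∑ a : Sym2 (B.erase q₀) → ZMod 2, ft s b (ck a) := by
      convert le_sum_ft h2 (B.erase q₀) s b
      exact hcard.symm
    generalize (∑ a : Sym2 (B.erase q₀) → ZMod 2, ft s b (ck a)) = Y at k h3
    generalize (∑ g : Sym2 ι → ZMod 2, ft s b (cr g B)) = X at k
    generalize (2 : ℝ) ^ Fintype.card (Sym2 (B.erase q₀)) = Z at *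
    refine le_of_mul_le_mul_right ?_ hp
    rw [k]
    calc (2 : ℝ) ^ Fintype.card (Sym2 ι) * 2 ^ (s * (s - 1) / 2) * (1 - 2 ^ s / 2 ^ m - 1 / 2 ^ b) * Z
        = 2 ^ Fintype.card (Sym2 ι) * (Z * 2 ^ (s * (s - 1) / 2) * (1 - 2 ^ s / 2 ^ m - 1 / 2 ^ b)) := by ring
      _ ≤ _ := mul_le_mul_of_nonneg_left h3 (by positivity)

end Q227.MX
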