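import Pool.Agent.Q44.MX.StmC

/-!
# MX-RDC: the Laplacian of a graph reduced to a symmetric matrix
-/

set_option autoImplicit false

namespace Q227.MX

open Finset Module Q44.MX
open scoped Classical

section

variable {ι : Type}

/-- the matrix of the reduced Laplacian -/
noncomputable def rd (B : Finset ι) (q₀ : ι) (g : Sym2 ι → ZMod 2) : Sym2 (B.erase q₀) → ZMod 2 :=
  Sym2.lift ⟨fun p q => if p = q then ∑ r ∈ B.erase (p : ι), g s((p : ι), r) else g s((p : ι), (q : ι)), by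
    intro p q
    dsimp only
    by_cases h : p = q
    · subst h; rfl
    · rw [if_neg h, if_neg (Ne.symm h), Sym2.eq_swap]⟩

theorem rd_mk (B : Finset ι) (q₀ : ι) (g : Sym2 ι → ZMod 2) (p q : B.erase q₀) :
    rd B q₀ g s(p, q) = if p = q then ∑ r ∈ B.erase (p : ι), g s((p : ι), r) else g s((p : ι), (q : ι)) := rfl

/-- extension by zero -/
noncomputable def ez (B : Finset ι) (q₀ : ι) (d : Sym2 (B.erase q₀) → ZMod 2) (x y : ι) : ZMod 2 :=
  if h : x ∈ B.erase q₀ ∧ y ∈ B.erase q₀ then d s(⟨x, h.1⟩, ⟨y, h.2⟩) else 0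

theorem ez_symm (B : Finset ι) (q₀ : ι) (d : Sym2 (B.erase q₀) → ZMod 2) (x y : ι) :
    ez B q₀ d x y = ez B q₀ d y x := by
  unfold ez
  by_cases h : x ∈ B.erase q₀ ∧ y ∈ B.erase q₀
  · rw [dif_pos h, dif_pos h.symm, Sym2.eq_swap]
  · rw [dif_neg h, dif_neg (fun h' => h h'.symm)]

theorem ez_coe (B : Finset ι) (q₀ : ι) (d : Sym2 (B.erase q₀) → ZMod 2) (x y : B.erase q₀) :
    ez B q₀ d x y = d s(x, y) := by
  unfold ez
  rw [dif_pos ⟨x.2, y.2⟩]

/-- the section -/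
noncomputable def sc (B : Finset ι) (q₀ : ι) (d : Sym2 (B.erase q₀) → ZMod 2) : Sym2 ι → ZMod 2 :=
  Sym2.lift ⟨fun x y => ez B q₀ d x y + ((if x = q₀ then ∑ r ∈ B.erase q₀, ez B q₀ d y r else 0) +
      (if y = q₀ then ∑ r ∈ B.erase q₀, ez B q₀ d x r else 0)), by
    intro x y
    dsimp only
    rw [ez_symm B q₀ d x y]
    congr 1
    exact add_comm _ _⟩

theorem sc_mk (B : Finset ι) (q₀ : ι) (d : Sym2 (B.erase q₀) → ZMod 2) (x y : ι) :
    sc B q₀ d s(x, y) = ez B q₀ d x y + ((if x = q₀ then ∑ r ∈ B.erase q₀, ez B q₀ d y r else 0) +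
      (if y = q₀ then ∑ r ∈ B.erase q₀, ez B q₀ d x r else 0)) := rfl

theorem rd_add (B : Finset ι) (q₀ : ι) (g h : Sym2 ι → ZMod 2) :
    rd B q₀ (g + h) = rd B q₀ g + rd B q₀ h := by
  funext e
  induction e using Sym2.ind with
  | _ p q =>
    rw [Pi.add_apply, rd_mk, rd_mk, rd_mk]
    by_cases hpq : p = q
    · simp only [if_pos hpq, Pi.add_apply, sum_add_distrib]
    · simp only [if_neg hpq, Pi.add_apply]

theorem rd_sc {B : Finset ι} {q₀ : ι} (hq : q₀ ∈ B) (d : Sym2 (B.erase q₀) → ZMod 2) :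
    rd B q₀ (sc B q₀ d) = d := by
  funext e
  induction e using Sym2.ind with
  | _ p q =>
    rw [rd_mk]
    have hp : (p : ι) ≠ q₀ := (mem_erase.1 p.2).1
    have hqq : (q : ι) ≠ q₀ := (mem_erase.1 q.2).1
    by_cases hpq : p = q
    · subst hpq
      rw [if_pos rfl]
      have h1 : q₀ ∈ B.erase (p : ι) := mem_erase.2 ⟨hp.symm, hq⟩
      rw [← add_sum_erase _ _ h1, sc_mk, if_neg hp, if_pos rfl, erase_right_comm]
      have h2 : ez B q₀ d p q₀ = 0 := by
        unfold ez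
        rw [dif_neg]
        intro h
        exact (mem_erase.1 h.2).1 rfl
      rw [h2, zero_add, zero_add, ← add_sum_erase _ _ p.2]
      have h3 : ∑ x ∈ (B.erase q₀).erase ↑p, sc B q₀ d s((p : ι), x) =
          ∑ x ∈ (B.erase q₀).erase ↑p, ez B q₀ d p x := by
        refine sum_congr rfl fun x hx => ?_
        rw [sc_mk, if_neg hp, if_neg (mem_erase.1 (mem_erase.1 hx).2).1, add_zero, add_zero]
      rw [h3, add_assoc, CharTwo.add_self_eq_zero, add_zero, ez_coe]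
    · rw [if_neg hpq, sc_mk, if_neg hp, if_neg hqq, add_zero, add_zero, ez_coe]

theorem sc_coe {B : Finset ι} {q₀ : ι} (d : Sym2 (B.erase q₀) → ZMod 2) (p q : B.erase q₀) :
    sc B q₀ d s((p : ι), (q : ι)) = d s(p, q) := by
  have hp : (p : ι) ≠ q₀ := (mem_erase.1 p.2).1
  have hqq : (q : ι) ≠ q₀ := (mem_erase.1 q.2).1
  rw [sc_mk, if_neg hp, if_neg hqq, add_zero, add_zero, ez_coe]

theorem lap_apply (g : Sym2 ι → ZMod 2) (B : Finset ι) (x : B → ZMod 2) (X : ι → ZMod 2)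
    (hX : ∀ q : B, X q = x q) (p : B) : lap g B x p = ∑ q ∈ B, g s((p : ι), q) * (X q + X p) := by
  rw [← sum_coe_sort B (fun q => g s((p : ι), q) * (X q + X p))]
  simp only [lap, LinearMap.coe_mk, AddHom.coe_mk, hX]

theorem sm_apply' (g : Sym2 ι → ZMod 2) (B : Finset ι) (q₀ : ι) (y : B.erase q₀ → ZMod 2) (Y : ι → ZMod 2)
    (hY : ∀ q : B.erase q₀, Y q = y q) (p : B.erase q₀) : sm (rd B q₀ g) y p =
      ∑ q ∈ B.erase q₀, (if (p : ι) = q then ∑ r ∈ B.erase (p : ι), g s((p : ι), r) else g s((p : ι), q)) * Y q := by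
  rw [← sum_coe_sort (B.erase q₀) (fun q => (if (p : ι) = q then ∑ r ∈ B.erase (p : ι), g s((p : ι), r)
    else g s((p : ι), q)) * Y q)]
  simp only [sm, LinearMap.coe_mk, AddHom.coe_mk, hY, rd_mk, Subtype.ext_iff]

theorem lap_eq_sm (g : Sym2 ι → ZMod 2) (B : Finset ι) {q₀ : ι} (hq : q₀ ∈ B) (x : B → ZMod 2)
    (p : B.erase q₀) : lap g B x ⟨p, mem_of_mem_erase p.2⟩ =
      sm (rd B q₀ g) (fun q => x ⟨q, mem_of_mem_erase q.2⟩ + x ⟨q₀, hq⟩) p := by
  set X : ι → ZMod 2 := fun i => if h : i ∈ B then x ⟨i, h⟩ else 0 with hXd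
  have hX : ∀ q : B, X q = x q := fun q => by simp [hXd]
  set Y : ι → ZMod 2 := fun i => X i + X q₀ with hYd
  have hY : ∀ q : B.erase q₀, Y q = x ⟨q, mem_of_mem_erase q.2⟩ + x ⟨q₀, hq⟩ := fun q => by
    simp only [hYd]
    rw [hX ⟨q, mem_of_mem_erase q.2⟩, hX ⟨q₀, hq⟩]
  rw [lap_apply g B x X hX, sm_apply' g B q₀ _ Y hY p]
  have h1 : ∀ q ∈ B, g s((p : ι), q) * (X q + X p) = g s((p : ι), q) * (Y q + Y p) := by
    intro q _
    have : Y q + Y p = X q + X p + (X q₀ + X q₀) := by simp only [hYd]; ring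
    rw [this, CharTwo.add_self_eq_zero, add_zero]
  have hpB : (p : ι) ∈ B := mem_of_mem_erase p.2
  have hp : (p : ι) ≠ q₀ := (mem_erase.1 p.2).1
  have hY0 : Y q₀ = 0 := by simp only [hYd]; exact CharTwo.add_self_eq_zero _
  rw [sum_congr rfl h1, ← add_sum_erase _ _ hpB, CharTwo.add_self_eq_zero, mul_zero, zero_add]
  simp only [mul_add, sum_add_distrib]
  rw [← add_sum_erase (B.erase q₀) _ p.2, if_pos rfl, ← sum_mul, add_comm]
  congr 1
  have h1 : q₀ ∈ B.erase (p : ι) := mem_erase.2 ⟨hp.symm, hq⟩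
  rw [← add_sum_erase _ _ h1, hY0, mul_zero, zero_add, erase_right_comm]
  refine sum_congr rfl fun q hq' => ?_
  rw [if_neg (mem_erase.1 hq').1.symm]

theorem lap_sum (g : Sym2 ι → ZMod 2) (B : Finset ι) (x : B → ZMod 2) : ∑ p : B, lap g B x p = 0 := by
  set X : ι → ZMod 2 := fun i => if h : i ∈ B then x ⟨i, h⟩ else 0 with hXd
  have hX : ∀ q : B, X q = x q := fun q => by simp [hXd]
  have h1 : ∑ p : B, lap g B x p = ∑ p : B, (fun i => ∑ q ∈ B, g s(i, q) * (X q + X i)) (p : ι) :=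
    sum_congr rfl fun p _ => lap_apply g B x X hX p
  rw [h1, sum_coe_sort B (fun i => ∑ q ∈ B, g s(i, q) * (X q + X i))]
  simp only [mul_add, sum_add_distrib]
  rw [sum_comm]
  have h2 : ∑ y ∈ B, ∑ x ∈ B, g s(x, y) * X y = ∑ x ∈ B, ∑ y ∈ B, g s(x, y) * X x :=
    sum_congr rfl fun a _ => sum_congr rfl fun b _ => by rw [Sym2.eq_swap]
  rw [h2, CharTwo.add_self_eq_zero]

theorem cr_eq_ck (g : Sym2 ι → ZMod 2) (B : Finset ι) {q₀ : ι} (hq : q₀ ∈ B) :
    cr g B = ck (rd B q₀ g) := by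
  have hc : Nat.card (LinearMap.ker (lap g B)) = Nat.card (LinearMap.ker (sm (rd B q₀ g)) × ZMod 2) := by
    refine Nat.card_congr
      { toFun := fun x => (⟨fun q => x.1 ⟨q, mem_of_mem_erase q.2⟩ + x.1 ⟨q₀, hq⟩, ?_⟩, x.1 ⟨q₀, hq⟩)
        invFun := fun y => ⟨fun p => if h : (p : ι) = q₀ then y.2 else y.1.1 ⟨p, mem_erase.2 ⟨h, p.2⟩⟩ + y.2, ?_⟩
        left_inv := ?_
        right_inv := ?_ }
    · rw [LinearMap.mem_ker]
      funext p
      rw [← lap_eq_sm g B hq x.1 p, LinearMap.mem_ker.1 x.2]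
      rfl
    · set x : B → ZMod 2 := fun p => if h : (p : ι) = q₀ then y.2 else y.1.1 ⟨p, mem_erase.2 ⟨h, p.2⟩⟩ + y.2 with hx
      have h1 : (fun q : B.erase q₀ => x ⟨q, mem_of_mem_erase q.2⟩ + x ⟨q₀, hq⟩) = y.1.1 := by
        funext q
        rw [hx]
        dsimp only
        rw [dif_neg (mem_erase.1 q.2).1, dif_pos rfl, add_assoc, CharTwo.add_self_eq_zero, add_zero]
      have h2 : ∀ p : B, (p : ι) ≠ q₀ → lap g B x p = 0 := by
        intro p hp
        have := lap_eq_sm g B hq x ⟨p, mem_erase.2 ⟨hp, p.2⟩⟩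
        rw [h1, LinearMap.mem_ker.1 y.1.2] at this
        exact this
      rw [LinearMap.mem_ker]
      funext p
      by_cases hp : (p : ι) = q₀
      · have h3 := lap_sum g B x
        rw [← add_sum_erase _ _ (mem_univ p), sum_eq_zero, add_zero] at h3
        · exact h3
        · intro q hq'
          refine h2 q fun h => (mem_erase.1 hq').1 ?_
          exact Subtype.ext (h.trans hp.symm)
      · exact h2 p hp
    · intro x
      apply Subtype.ext
      funext p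
      dsimp only
      by_cases hp : (p : ι) = q₀
      · rw [dif_pos hp]
        exact congrArg x.1 (Subtype.ext hp.symm)
      · rw [dif_neg hp, add_assoc, CharTwo.add_self_eq_zero, add_zero]
    · intro y
      refine Prod.ext (Subtype.ext (funext fun q => ?_)) ?_
      · dsimp only
        rw [dif_neg (mem_erase.1 q.2).1, dif_pos rfl, add_assoc, CharTwo.add_self_eq_zero, add_zero]
      · dsimp only
        rw [dif_pos rfl]
  rw [Nat.card_prod] at hc
  have h1 : Nat.card (LinearMap.ker (lap g B)) = 2 ^ finrank (ZMod 2) (LinearMap.ker (lap g B)) := by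
    have := Module.natCard_eq_pow_finrank (K := ZMod 2) (V := LinearMap.ker (lap g B))
    rwa [Nat.card_zmod] at this
  have h2 : Nat.card (LinearMap.ker (sm (rd B q₀ g))) = 2 ^ finrank (ZMod 2) (LinearMap.ker (sm (rd B q₀ g))) := by
    have := Module.natCard_eq_pow_finrank (K := ZMod 2) (V := LinearMap.ker (sm (rd B q₀ g)))
    rwa [Nat.card_zmod] at this
  rw [h1, h2, Nat.card_zmod, ← pow_succ] at hc
  have h3 := Nat.pow_right_injective (le_refl 2) hc
  unfold cr ck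
  omega

end

theorem t_RDC : S_RDC := by
  intro ι _ B σ q₀ hq hσ ν f
  set A := univ.filter (fun a : Sym2 (B.erase q₀) → ZMod 2 =>
      ∀ p q : B.erase q₀, (p : ι) ∈ σ → (q : ι) ∈ σ → p ≠ q → a s(p, q) = ν s((p : ι), (q : ι))) with hA
  have hself : ∀ (α : Type) (u v : α → ZMod 2), u + v + v = u := by
    intro α u v
    funext i
    simp only [Pi.add_apply, add_assoc, CharTwo.add_self_eq_zero, add_zero]
  have hrd : ∀ g ∈ Agr σ ν, rd B q₀ g ∈ A := by
    intro g hg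
    simp only [Agr, hA, mem_filter, mem_univ, true_and] at hg ⊢
    intro p q hp hq' hpq
    rw [rd_mk, if_neg hpq]
    exact hg _ hp _ hq' (fun h => hpq (Subtype.ext h))
  have key : ∑ z ∈ (Agr σ ν) ×ˢ A, f (ck (rd B q₀ z.1)) = ∑ z ∈ (Agr σ ν) ×ˢ A, f (ck z.2) := by
    have hrr : ∀ (g : Sym2 ι → ZMod 2) (a : Sym2 (B.erase q₀) → ZMod 2),
        rd B q₀ (g + sc B q₀ (a + rd B q₀ g)) = a := by
      intro g a
      rw [rd_add, rd_sc hq, add_comm (rd B q₀ g), hself]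
    have hmem : ∀ z ∈ (Agr σ ν) ×ˢ A, (z.1 + sc B q₀ (z.2 + rd B q₀ z.1), rd B q₀ z.1) ∈ (Agr σ ν) ×ˢ A := by
      intro z hz
      obtain ⟨h1, h2⟩ := mem_product.1 hz
      refine mem_product.2 ⟨?_, hrd _ h1⟩
      simp only [Agr, hA, mem_filter, mem_univ, true_and] at h1 h2 ⊢
      intro p hp q hq' hpq
      have hp' := hσ hp
      have hq'' := hσ hq'
      have e1 := sc_coe (z.2 + rd B q₀ z.1) ⟨p, hp'⟩ ⟨q, hq''⟩
      have hne : (⟨p, hp'⟩ : B.erase q₀) ≠ ⟨q, hq''⟩ := fun h => hpq (Subtype.ext_iff.1 h)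
      simp only [Pi.add_apply] at e1 ⊢
      rw [e1, h2 ⟨p, hp'⟩ ⟨q, hq''⟩ hp hq' hne, rd_mk, if_neg hne]
      rw [add_comm (ν _), ← add_assoc, CharTwo.add_self_eq_zero, zero_add]
    refine sum_nbij' (fun z => (z.1 + sc B q₀ (z.2 + rd B q₀ z.1), rd B q₀ z.1))
      (fun z => (z.1 + sc B q₀ (z.2 + rd B q₀ z.1), rd B q₀ z.1)) hmem hmem ?_ ?_ ?_
    · intro z _
      refine Prod.ext ?_ (hrr _ _)
      dsimp only
      rw [hrr, add_comm (rd B q₀ z.1) z.2, hself]
    · intro z _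
      refine Prod.ext ?_ (hrr _ _)
      dsimp only
      rw [hrr, add_comm (rd B q₀ z.1) z.2, hself]
    · intro z _
      rfl
  rw [sum_product, sum_product] at key
  simp only [sum_const, nsmul_eq_mul] at key
  rw [sum_mul, ← key]
  refine sum_congr rfl fun g _ => ?_
  rw [cr_eq_ck g B hq, mul_comm]

end Q227.MX
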