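import Pool.Agent.Q44.MX.StmC

/-!
# MX-SYM: the moments of the corank of a uniform symmetric matrix over the field with two elements
-/

set_option autoImplicit false

namespace Q227.MX

open Finset Module Q44.MX
open scoped Classical

theorem ut_zero_of_lt {s c : ℕ} (h : c < s) : ut s c = 0 := by
  unfold ut
  exact Finset.prod_eq_zero (i := c) (by simpa using h) (by simp)

/-- number of the linearly independent `s`-tuples -/
theorem card_li {V : Type} [AddCommGroup V] [Module (ZMod 2) V] [Finite V] (s : ℕ) :
    Nat.card {x : Fin s → V // LinearIndependent (ZMod 2) x} = ut s (finrank (ZMod 2) V) := by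
  by_cases h : s ≤ finrank (ZMod 2) V
  · rw [card_linearIndependent h, ut, ZMod.card]
    exact Fin.prod_univ_eq_prod_range (fun i => 2 ^ finrank (ZMod 2) V - 2 ^ i) s
  · rw [ut_zero_of_lt (by omega), Nat.card_eq_zero]
    left
    refine ⟨fun x => h ?_⟩
    simpa using x.2.fintype_card_le_finrank

section

variable {P : Type} [Fintype P]

/-- the bilinear form of `a` -/
noncomputable def bl (a : Sym2 P → ZMod 2) (x y : P → ZMod 2) : ZMod 2 :=
  ∑ u, x u * sm a y u

theorem bl_symm (a : Sym2 P → ZMod 2) (x y : P → ZMod 2) : bl a x y = bl a y x := by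
  unfold bl
  simp only [sm, LinearMap.coe_mk, AddHom.coe_mk, mul_sum]
  rw [sum_comm]
  refine sum_congr rfl fun u _ => sum_congr rfl fun v _ => ?_
  rw [Sym2.eq_swap]
  ring

/-- the bilinear form as a bilinear map -/
noncomputable def blm (a : Sym2 P → ZMod 2) :
    (P → ZMod 2) →ₗ[ZMod 2] (P → ZMod 2) →ₗ[ZMod 2] ZMod 2 :=
  LinearMap.mk₂ (ZMod 2) (bl a)
    (fun x x' y => by simp only [bl, Pi.add_apply, add_mul, sum_add_distrib])
    (fun c x y => by simp only [bl, Pi.smul_apply, smul_eq_mul, mul_sum, mul_assoc])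
    (fun x y y' => by simp only [bl, map_add, Pi.add_apply, mul_add, sum_add_distrib])
    (fun c x y => by
      simp only [bl, map_smul, Pi.smul_apply, smul_eq_mul, mul_sum]
      exact sum_congr rfl fun u _ => by ring)

theorem blm_apply (a : Sym2 P → ZMod 2) (x y : P → ZMod 2) : blm a x y = bl a x y := rfl

theorem bl_single (a : Sym2 P → ZMod 2) (u v : P) : bl a (Pi.single u 1) (Pi.single v 1) = a s(u, v) := by
  unfold bl
  simp [sm, Pi.single_apply]

theorem bl_single_left (a : Sym2 P → ZMod 2) (u : P) (y : P → ZMod 2) : bl a (Pi.single u 1) y = sm a y u := by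
  unfold bl
  simp [Pi.single_apply]

/-- change of the basis -/
noncomputable def cb (b : Basis P (ZMod 2) (P → ZMod 2)) (a : Sym2 P → ZMod 2) : Sym2 P → ZMod 2 :=
  Sym2.lift ⟨fun p q => bl a (b p) (b q), fun p q => bl_symm a _ _⟩

theorem cb_mk (b : Basis P (ZMod 2) (P → ZMod 2)) (a : Sym2 P → ZMod 2) (p q : P) :
    cb b a s(p, q) = bl a (b p) (b q) := rfl

theorem cb_inj (b : Basis P (ZMod 2) (P → ZMod 2)) : Function.Injective (cb b) := by
  intro a a' h
  have h1 : blm a = blm a' := by
    refine LinearMap.ext_basis b b fun i j => ?_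
    have := congrFun h s(i, j)
    rw [blm_apply, blm_apply]
    exact this
  funext e
  induction e using Sym2.ind with
  | _ u v =>
    rw [← bl_single a u v, ← bl_single a' u v, ← blm_apply, ← blm_apply, h1]

theorem sm_eq_zero_iff (b : Basis P (ZMod 2) (P → ZMod 2)) (a : Sym2 P → ZMod 2) (y : P → ZMod 2) :
    sm a y = 0 ↔ ∀ p, bl a (b p) y = 0 := by
  constructor
  · intro h p
    unfold bl
    rw [h]
    simp
  · intro h
    have h1 : (blm a).flip y = 0 := by
      refine b.ext fun p => ?_
      simpa [blm_apply] using h p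
    funext u
    have h2 : (blm a).flip y (Pi.single u 1) = 0 := by rw [h1]; rfl
    rw [LinearMap.flip_apply, blm_apply, bl_single_left] at h2
    simpa using h2

theorem exists_basis {s : ℕ} (X : Fin s → P → ZMod 2) (hX : LinearIndependent (ZMod 2) X) :
    ∃ (b : Basis P (ZMod 2) (P → ZMod 2)) (j : Fin s → P), Function.Injective j ∧ ∀ i, b (j i) = X i := by
  have hs := hX.linearIndepOn_id
  let b0 := Basis.extend hs
  have hf : Finite ↥(hs.extend (Set.subset_univ _)) := Module.Finite.finite_basis b0
  have hft : Fintype ↥(hs.extend (Set.subset_univ _)) := Fintype.ofFinite _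
  have hc : Fintype.card ↥(hs.extend (Set.subset_univ _)) = Fintype.card P := by
    rw [← Module.finrank_eq_card_basis b0, Module.finrank_fintype_fun_eq_card]
  let e := Fintype.equivOfCardEq hc
  have hm : ∀ i, X i ∈ hs.extend (Set.subset_univ _) := fun i => hs.subset_extend _ ⟨i, rfl⟩
  refine ⟨b0.reindex e, fun i => e ⟨X i, hm i⟩, ?_, ?_⟩
  · intro i i' h
    have h1 := e.injective h
    exact hX.injective (Subtype.ext_iff.1 h1)
  · intro i
    rw [Basis.reindex_apply, Equiv.symm_apply_apply]
    exact Basis.extend_apply_self hs _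

theorem card_supp (E : Finset (Sym2 P)) :
    (univ.filter fun a : Sym2 P → ZMod 2 => ∀ e, e ∉ E → a e = 0).card = 2 ^ E.card := by
  have h : (univ.filter fun a : Sym2 P → ZMod 2 => ∀ e, e ∉ E → a e = 0) =
      Fintype.piFinset fun e => if e ∈ E then (univ : Finset (ZMod 2)) else {0} := by
    ext a
    simp only [mem_filter, mem_univ, true_and, Fintype.mem_piFinset]
    refine forall_congr' fun e => ?_
    by_cases he : e ∈ E <;> simp [he]
  rw [h, Fintype.card_piFinset]
  have h2 : ∀ e, (if e ∈ E then (univ : Finset (ZMod 2)) else {0}).card = if e ∈ E then 2 else 1 := by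
    intro e
    by_cases he : e ∈ E <;> simp [he, ZMod.card]
  simp only [h2]
  rw [prod_ite_mem]
  simp

theorem card_kill {s : ℕ} (X : Fin s → P → ZMod 2) (hX : LinearIndependent (ZMod 2) X) :
    (univ.filter fun a : Sym2 P → ZMod 2 => ∀ i, sm a (X i) = 0).card =
      2 ^ ((Fintype.card P - s + 1).choose 2) := by
  obtain ⟨b, j, hj, hb⟩ := exists_basis X hX
  set D : Finset P := univ \ univ.image j with hD
  have hDc : D.card = Fintype.card P - s := by
    rw [hD, card_sdiff_of_subset (subset_univ _), card_image_of_injective _ hj]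
    simp
  have h1 : (univ.filter fun a : Sym2 P → ZMod 2 => ∀ i, sm a (X i) = 0).card =
      (univ.filter fun a : Sym2 P → ZMod 2 => ∀ e, e ∉ D.sym2 → a e = 0).card := by
    refine card_bij (fun a _ => cb b a) ?_ (fun a _ a' _ h => cb_inj b h) ?_
    · intro a ha
      simp only [mem_filter, mem_univ, true_and] at ha ⊢
      intro e
      induction e using Sym2.ind with
      | _ p q =>
        intro he
        rw [cb_mk]
        rw [mem_sym2_iff] at he
        simp only [Sym2.mem_iff, forall_eq_or_imp, forall_eq, hD, mem_sdiff, mem_univ, true_and, mem_image,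
          not_exists, not_and_or, not_forall, not_not] at he
        rcases he with ⟨i, hi⟩ | ⟨i, hi⟩
        · rw [bl_symm, ← hi, hb]
          exact (sm_eq_zero_iff b a _).1 (ha i) q
        · rw [← hi, hb]
          exact (sm_eq_zero_iff b a _).1 (ha i) p
    · intro a' ha'
      simp only [mem_filter, mem_univ, true_and] at ha'
      obtain ⟨a, rfl⟩ := (Finite.injective_iff_surjective.1 (cb_inj b)) a'
      refine ⟨a, ?_, rfl⟩
      simp only [mem_filter, mem_univ, true_and]
      intro i
      rw [sm_eq_zero_iff b]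
      intro p
      rw [← hb i, ← cb_mk]
      refine ha' _ ?_
      rw [mem_sym2_iff]
      intro h
      have := h (j i) (by simp)
      simp [hD] at this
  rw [h1, card_supp, card_sym2, hDc]

theorem ut_ck (a : Sym2 P → ZMod 2) (s : ℕ) :
    ut s (ck a) = (univ.filter fun X : Fin s → P → ZMod 2 =>
      LinearIndependent (ZMod 2) X ∧ ∀ i, sm a (X i) = 0).card := by
  rw [ck, ← card_li, ← Fintype.card_subtype, ← Nat.card_eq_fintype_card]
  refine Nat.card_congr
    { toFun := fun x => ⟨fun i => (x.1 i : P → ZMod 2), ?_, fun i => (x.1 i).2⟩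
      invFun := fun X => ⟨fun i => ⟨X.1 i, X.2.2 i⟩, ?_⟩
      left_inv := fun x => rfl
      right_inv := fun X => rfl }
  · exact x.2.map' (LinearMap.ker (sm a)).subtype (Submodule.ker_subtype _)
  · exact LinearIndependent.of_comp (LinearMap.ker (sm a)).subtype X.2.1

end

theorem arith {m s : ℕ} (h : s ≤ m) :
    (m - s + 1).choose 2 + m * s = (m + 1).choose 2 + s * (s - 1) / 2 := by
  obtain ⟨r, rfl⟩ := Nat.exists_eq_add_of_le h
  rw [Nat.add_sub_cancel_left, Nat.choose_two_right, Nat.choose_two_right]
  have e1 : 2 * ((r + 1) * (r + 1 - 1) / 2) = (r + 1) * r := by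
    rw [Nat.add_sub_cancel]
    exact Nat.mul_div_cancel' (by rw [mul_comm]; exact (Nat.even_mul_succ_self r).two_dvd)
  have e2 : 2 * ((s + r + 1) * (s + r + 1 - 1) / 2) = (s + r + 1) * (s + r) := by
    rw [Nat.add_sub_cancel]
    exact Nat.mul_div_cancel' (by rw [mul_comm]; exact (Nat.even_mul_succ_self (s + r)).two_dvd)
  have e3 : 2 * (s * (s - 1) / 2) + s = s * s := by
    rw [Nat.mul_div_cancel' (Nat.even_mul_pred_self s).two_dvd]
    rcases s with _ | s
    · rfl
    · simp only [Nat.add_sub_cancel]; ring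
  have : 2 * ((r + 1) * (r + 1 - 1) / 2 + (s + r) * s) + s =
      2 * ((s + r + 1) * (s + r + 1 - 1) / 2 + s * (s - 1) / 2) + s := by
    linarith [e1, e2, e3, (by ring : (r + 1) * r + 2 * ((s + r) * s) + s = (s + r + 1) * (s + r) + s * s)]
  omega

theorem t_SYM : S_SYM := by
  intro P _ s
  have h1 : (∑ a : Sym2 P → ZMod 2, ut s (ck a)) =
      ∑ X ∈ univ.filter (fun X : Fin s → P → ZMod 2 => LinearIndependent (ZMod 2) X),
        (univ.filter fun a : Sym2 P → ZMod 2 => ∀ i, sm a (X i) = 0).card := by
    simp only [ut_ck, card_filter, sum_filter]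
    rw [sum_comm]
    refine sum_congr rfl fun X _ => ?_
    by_cases hX : LinearIndependent (ZMod 2) X <;> simp [hX]
  have h2 : (univ.filter (fun X : Fin s → P → ZMod 2 => LinearIndependent (ZMod 2) X)).card =
      ut s (Fintype.card P) := by
    rw [← Fintype.card_subtype, ← Nat.card_eq_fintype_card, card_li, Module.finrank_fintype_fun_eq_card]
  rw [h1, sum_congr rfl (fun X hX => card_kill X (mem_filter.1 hX).2), sum_const, h2, smul_eq_mul, Sym2.card]
  rcases le_or_gt s (Fintype.card P) with h | h
  · calc ut s (Fintype.card P) * 2 ^ ((Fintype.card P - s + 1).choose 2) * 2 ^ (Fintype.card P * s)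
        = ut s (Fintype.card P) * 2 ^ ((Fintype.card P - s + 1).choose 2 + Fintype.card P * s) := by
          rw [pow_add]; ring
      _ = ut s (Fintype.card P) * 2 ^ ((Fintype.card P + 1).choose 2 + s * (s - 1) / 2) := by rw [arith h]
      _ = _ := by rw [pow_add]; ring
  · rw [ut_zero_of_lt h]
    simp

end Q227.MX
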